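import Pool.Agent.H.MP_072fb1_ag.K3.Main
import Pool.Agent.H.MP_072fb1_ag.K3.AL

/-!
# Hodge isometries and their action on `δ*`
-/

set_option autoImplicit false

namespace Pool.Agent.H.MP_072fb1_ag.K3.Pol


theorem smul_sub_self (c : ℚ) (x : HV ℚ) : c • x - x = (c - 1) • x := by
  rw [sub_smul, one_smul]

theorem smul_add_self (c : ℚ) (x : HV ℚ) : c • x + x = (c + 1) • x := by
  rw [add_smul, one_smul]

/-- `γ` multiplies `δ*` by `u` modulo `H²`. -/
def ActsBy (N : ℕ) (γ : HV ℚ ≃ₗ[ℚ] HV ℚ) (u : ℤ) : Prop :=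
  IntH (γ (dst N) - (u : ℚ) • dst N)

theorem int_dst_iff {N : ℕ} (hN : 0 < N) (a : ℤ) :
    IntH ((2 * (a : ℚ)) • dst N) ↔ (N : ℤ) ∣ a := by
  have hN0 : (N : ℚ) ≠ 0 := by exact_mod_cast hN.ne'
  have e : ((2 * (a : ℚ)) • dst N) = ((a : ℚ) / N) • (dl : HV ℚ) := by
    have h : dst N = (1 / (2 * (N : ℚ))) • dl := rfl
    rw [h, smul_smul]
    congr 1
    field_simp
  rw [e]
  constructor
  · intro h
    obtain ⟨z, hz⟩ := h.2.2.2.2.2
    have hz' : (a : ℚ) / N = z := by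
      rw [← hz]
      simp [dl]
    refine ⟨z, ?_⟩
    rw [div_eq_iff hN0] at hz'
    have h2 : (a : ℚ) = ((N * z : ℤ) : ℚ) := by
      push_cast
      linarith
    exact_mod_cast h2
  · rintro ⟨z, rfl⟩
    have e2 : (((N * z : ℤ) : ℚ) / N) = z := by
      push_cast
      field_simp
    rw [e2]
    exact IntH.smul (IsZ.int z) dl_int

theorem acts_trans {N : ℕ} {γ γ' : HV ℚ ≃ₗ[ℚ] HV ℚ} {u u' : ℤ} (h : ActsBy N γ u)
    (h' : ActsBy N γ' u') (hint : ∀ x, IntH (γ' x) ↔ IntH x) :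
    ActsBy N (γ.trans γ') (u * u') := by
  unfold ActsBy
  have e : (γ.trans γ') (dst N) - ((u * u' : ℤ) : ℚ) • dst N =
      γ' (γ (dst N) - (u : ℚ) • dst N) + (u : ℚ) • (γ' (dst N) - (u' : ℚ) • dst N) := by
    rw [LinearEquiv.trans_apply, map_sub, map_smul, smul_sub, smul_smul]
    push_cast
    abel
  rw [e]
  exact ((hint _).2 h).add (IntH.smul (IsZ.int u) h')

theorem acts_symm {N : ℕ} (hN : 0 < N) {γ : HV ℚ ≃ₗ[ℚ] HV ℚ} {u : ℤ} (h : ActsBy N γ u)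
    (hu : (N : ℤ) * 4 ∣ u ^ 2 - 1) (hint : ∀ x, IntH (γ x) ↔ IntH x) :
    ActsBy N γ.symm u := by
  unfold ActsBy
  rw [← hint]
  obtain ⟨j, hj⟩ := hu
  have hj' : (u : ℚ) ^ 2 - 1 = N * 4 * j := by exact_mod_cast hj
  have e : γ (γ.symm (dst N) - (u : ℚ) • dst N) =
      (-((u : ℚ) • (γ (dst N) - (u : ℚ) • dst N))) +
        (-((2 * ((2 * N * j : ℤ) : ℚ)) • dst N)) := by
    have e1 : (2 * ((2 * N * j : ℤ) : ℚ)) = (u : ℚ) ^ 2 - 1 := by
      rw [hj']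
      push_cast
      ring
    rw [e1, map_sub, map_smul, γ.apply_symm_apply, smul_sub, smul_smul, sub_smul, one_smul,
      pow_two]
    abel
  rw [e]
  refine (IntH.smul (IsZ.int u) h).neg.add ((int_dst_iff hN _).2 ⟨2 * j, by ring⟩).neg

theorem hodge_symm {N : ℕ} {s s' : HV ℂ} {γ : HV ℚ ≃ₗ[ℚ] HV ℚ}
    (h : HodgeIsometryL N s s' γ) : HodgeIsometryL N s' s γ.symm := by
  obtain ⟨h1, h2, c, hc, h3⟩ := h
  refine ⟨fun x y => ?_, fun x => ?_, c⁻¹, inv_ne_zero hc, fun x => ?_⟩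
  · rw [← h1, γ.apply_symm_apply, γ.apply_symm_apply]
  · rw [← h2, γ.apply_symm_apply]
  · have h4 := h3 (γ.symm x)
    rw [γ.apply_symm_apply] at h4
    rw [h4, ← mul_assoc, inv_mul_cancel₀ hc, one_mul]

theorem hodge_trans {N : ℕ} {s s' s'' : HV ℂ} {γ γ' : HV ℚ ≃ₗ[ℚ] HV ℚ}
    (h : HodgeIsometryL N s s' γ) (h' : HodgeIsometryL N s' s'' γ') :
    HodgeIsometryL N s s'' (γ.trans γ') := by
  obtain ⟨h1, h2, c, hc, h3⟩ := h
  obtain ⟨h1', h2', c', hc', h3'⟩ := h'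
  refine ⟨fun x y => ?_, fun x => ?_, c' * c, mul_ne_zero hc' hc, fun x => ?_⟩
  · rw [LinearEquiv.trans_apply, LinearEquiv.trans_apply, h1', h1]
  · rw [LinearEquiv.trans_apply, h2', h2]
  · rw [LinearEquiv.trans_apply, h3', h3, mul_assoc]

theorem inT_map {N : ℕ} {s s' : HV ℂ} {γ : HV ℚ ≃ₗ[ℚ] HV ℚ} (h : HodgeIsometryL N s s' γ)
    {t : HV ℚ} (ht : InT N s t) : InT N s' (γ t) := by
  intro y hy
  have h0 : InNS N s (γ.symm y) := by
    obtain ⟨-, -, c, hc, h3⟩ := hodge_symm h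
    show pC N (γ.symm y) s = 0
    rw [h3, show pC N y s' = 0 from hy, mul_zero]
  have h2 := ht _ h0
  rw [← h.1, γ.apply_symm_apply] at h2
  exact h2

theorem signs_map {N : ℕ} {s s' : HV ℂ} {γ : HV ℚ ≃ₗ[ℚ] HV ℚ} (h : HodgeIsometryL N s s' γ)
    (hs : OnlySignsL N s) : OnlySignsL N s' := by
  intro φ h1 h2 ⟨c, hc, h3⟩
  have hγ' := hodge_symm h
  have key := hs ((γ.symm.toLinearMap.comp φ).comp γ.toLinearMap) ?_ ?_ ?_
  · have hval : ∀ t, InT N s' t →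
        ((γ.symm.toLinearMap.comp φ).comp γ.toLinearMap) (γ.symm t) = γ.symm (φ t) := by
      intro t _
      simp
    rcases key with h5 | h5
    · left
      intro t ht
      have h6 := h5 (γ.symm t) (inT_map hγ' ht)
      rw [hval t ht] at h6
      exact γ.symm.injective h6
    · right
      intro t ht
      have h6 := h5 (γ.symm t) (inT_map hγ' ht)
      rw [hval t ht, ← map_neg] at h6
      exact γ.symm.injective h6
  · intro t ht
    exact inT_map hγ' (h1 _ (inT_map h ht))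
  · intro t u ht hu
    show pH N (γ.symm (φ (γ t))) (γ.symm (φ (γ u))) = pH N t u
    rw [hγ'.1, h2 _ _ (inT_map h ht) (inT_map h hu), h.1]
  · obtain ⟨-, -, a, ha, h4⟩ := id h
    obtain ⟨-, -, b, hb, h5⟩ := hγ'
    refine ⟨b * (c * a), mul_ne_zero hb (mul_ne_zero hc ha), fun t ht => ?_⟩
    show pC N (γ.symm (φ (γ t))) s = b * (c * a) * pC N t s
    rw [h5, h3 _ (inT_map h ht), h4]
    ring

theorem many_lower {N : ℕ} (hN : 0 < N) {s sA sB : HV ℂ} (hsig : OnlySignsL N s)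
    {k : ℤ} {t : HV ℚ} (ht : InT N s t) (hkt : IntH (t - (2 * k : ℚ) • dst N))
    {γA γB : HV ℚ ≃ₗ[ℚ] HV ℚ} {a b : ℤ} (hA : HodgeIsometryL N s sA γA)
    (hB : HodgeIsometryL N s sB γB) (ha : ActsBy N γA a) (hb : ActsBy N γB b)
    (ha2 : (N : ℤ) * 4 ∣ a ^ 2 - 1) {V : Type*} [AddCommGroup V] [Module ℚ V]
    {κ : LV ℚ →ₗ[ℚ] LV ℚ →ₗ[ℚ] Module.End ℚ V} {M : Submodule ℤ V} (hD : K3DatumL N κ M)
    (hK : KIsomorphicL N κ M sA sB) : (N : ℤ) ∣ k * (b - a) ∨ (N : ℤ) ∣ k * (b + a) := by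
  have hγ := hodge_trans (hodge_symm hA) hB
  have hact := acts_trans (acts_symm hN ha ha2 hA.2.1) hb hB.2.1
  have hkt' : IntH (γA t - (2 * ((k * a : ℤ) : ℚ)) • dst N) := by
    have e : γA t - (2 * ((k * a : ℤ) : ℚ)) • dst N =
        γA (t - (2 * k : ℚ) • dst N) + (2 * k : ℚ) • (γA (dst N) - (a : ℚ) • dst N) := by
      rw [map_sub, map_smul, smul_sub, smul_smul]
      push_cast
      rw [show (2 * ((k : ℚ) * a)) = 2 * k * a by ring]
      abel
    rw [e]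
    exact ((hA.2.1 _).2 hkt).add (IntH.smul ((IsZ.nat 2).mul (IsZ.int k)) ha)
  have hZ : IsZ (2 * ((k * a : ℤ) : ℚ)) := (IsZ.nat 2).mul (IsZ.int _)
  obtain ⟨j, hj⟩ := ha2
  rcases main_general hN (signs_map hA hsig) hγ hD hK (k * a) (inT_map hA ht) hkt' with h | h
  · left
    have h1 : IntH ((2 * ((k * a * (a * b - 1) : ℤ) : ℚ)) • dst N) := by
      have e : (2 * ((k * a * (a * b - 1) : ℤ) : ℚ)) • dst N =
          (2 * ((k * a : ℤ) : ℚ)) • ((γA.symm.trans γB) (dst N) - dst N) -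
            (2 * ((k * a : ℤ) : ℚ)) •
              ((γA.symm.trans γB) (dst N) - ((a * b : ℤ) : ℚ) • dst N) := by
        rw [← smul_sub, sub_sub_sub_cancel_left, smul_sub_self, smul_smul]
        congr 1
        push_cast
        ring
      rw [e]
      exact h.sub (IntH.smul hZ hact)
    obtain ⟨l, hl⟩ := (int_dst_iff hN _).1 h1
    exact ⟨l - 4 * j * b * k, by linear_combination hl - b * k * hj⟩
  · right
    have h1 : IntH ((2 * ((k * a * (a * b + 1) : ℤ) : ℚ)) • dst N) := by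
      have e : (2 * ((k * a * (a * b + 1) : ℤ) : ℚ)) • dst N =
          (2 * ((k * a : ℤ) : ℚ)) • ((γA.symm.trans γB) (dst N) + dst N) -
            (2 * ((k * a : ℤ) : ℚ)) •
              ((γA.symm.trans γB) (dst N) - ((a * b : ℤ) : ℚ) • dst N) := by
        have e2 : (γA.symm.trans γB) (dst N) + dst N -
            ((γA.symm.trans γB) (dst N) - ((a * b : ℤ) : ℚ) • dst N) =
            ((a * b : ℤ) : ℚ) • dst N + dst N := by abel
        rw [← smul_sub, e2, smul_add_self, smul_smul]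
        congr 1
        push_cast
        ring
      rw [e]
      exact h.sub (IntH.smul hZ hact)
    obtain ⟨l, hl⟩ := (int_dst_iff hN _).1 h1
    exact ⟨l - 4 * j * b * k, by linear_combination hl - b * k * hj⟩

/-- `t = 2δ*` for transcendental `δ`. -/
theorem glue_dl {N : ℕ} (hN : 0 < N) {s : HV ℂ} (hdl : InT N s dl) :
    InT N s ((2 : ℚ) • dst N) ∧ IntH ((2 : ℚ) • dst N - (2 * ((1 : ℤ) : ℚ)) • dst N) := by
  have hN0 : (N : ℚ) ≠ 0 := by exact_mod_cast hN.ne'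
  constructor
  · have h2 : (2 : ℚ) • dst N = (1 / (N : ℚ)) • (dl : HV ℚ) := by
      conv_rhs => rw [dl_dst hN]
      rw [smul_smul]
      congr 1
      field_simp
    rw [h2]
    intro y hy
    rw [pH_smul_left, hdl y hy, mul_zero]
  · rw [show (2 * ((1 : ℤ) : ℚ)) = 2 by norm_num, sub_self]
    exact IntH.zero

theorem many_upper {N : ℕ} (hN : 0 < N) {s sA s' : HV ℂ} {γA γ : HV ℚ ≃ₗ[ℚ] HV ℚ} {a u : ℤ}
    (hA : HodgeIsometryL N s sA γA) (h' : HodgeIsometryL N s s' γ) (ha : ActsBy N γA a)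
    (hu : ActsBy N γ u) (ha2 : (N : ℤ) * 4 ∣ a ^ 2 - 1)
    (h : (N : ℤ) ∣ u - a ∨ (N : ℤ) ∣ u + a) :
    ∃ γ' : HV ℚ ≃ₗ[ℚ] HV ℚ, HodgeIsometryL N sA s' γ' ∧
      (IntH ((2 : ℚ) • (γ' (dst N) - dst N)) ∨ IntH ((2 : ℚ) • (γ' (dst N) + dst N))) := by
  have hγ := hodge_trans (hodge_symm hA) h'
  have hact := acts_trans (acts_symm hN ha ha2 hA.2.1) hu h'.2.1
  obtain ⟨j, hj⟩ := ha2
  refine ⟨_, hγ, ?_⟩
  rcases h with ⟨k, hk⟩ | ⟨k, hk⟩
  · left
    have e : (2 : ℚ) • ((γA.symm.trans γ) (dst N) - dst N) =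
        (2 : ℚ) • ((γA.symm.trans γ) (dst N) - ((a * u : ℤ) : ℚ) • dst N) +
          (2 * ((a * u - 1 : ℤ) : ℚ)) • dst N := by
      have e1 : (2 * ((a * u - 1 : ℤ) : ℚ)) • dst N =
          (2 : ℚ) • (((a * u : ℤ) : ℚ) • dst N - dst N) := by
        rw [smul_sub_self, smul_smul]
        congr 1
        push_cast
        ring
      rw [e1, ← smul_add]
      congr 1
      abel
    rw [e]
    exact (IntH.smul (IsZ.nat 2) hact).add ((int_dst_iff hN _).2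
      ⟨a * k + 4 * j, by linear_combination a * hk + hj⟩)
  · right
    have e : (2 : ℚ) • ((γA.symm.trans γ) (dst N) + dst N) =
        (2 : ℚ) • ((γA.symm.trans γ) (dst N) - ((a * u : ℤ) : ℚ) • dst N) +
          (2 * ((a * u + 1 : ℤ) : ℚ)) • dst N := by
      have e1 : (2 * ((a * u + 1 : ℤ) : ℚ)) • dst N =
          (2 : ℚ) • (((a * u : ℤ) : ℚ) • dst N + dst N) := by
        rw [smul_add_self, smul_smul]
        congr 1
        push_cast
        ring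
      rw [e1, ← smul_add]
      congr 1
      abel
    rw [e]
    exact (IntH.smul (IsZ.nat 2) hact).add ((int_dst_iff hN _).2
      ⟨a * k - 4 * j, by linear_combination a * hk - hj⟩)

end Pool.Agent.H.MP_072fb1_ag.K3.Pol
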