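import Pool.Agent.H.MP_072fb1_ag.Pol.Per
import Pool.Agent.H.MP_072fb1_ag.K3.Main

/-!
# The only Hodge isometries of the transcendental part are `1` and `-1`
-/

set_option autoImplicit false

namespace Pool.Agent.H.MP_072fb1_ag.K3.Pol

open Polynomial

theorem pol_sumsq (P Q : ℚ[X]) (h : (P * P + Q * Q).natDegree = 0) :
    P.natDegree = 0 ∧ Q.natDegree = 0 := by
  have key : ∀ m : ℕ, 0 < m → P.natDegree ≤ m → Q.natDegree ≤ m → P.coeff m = 0 ∧ Q.coeff m = 0 := by
    intro m hm hP hQ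
    have h1 : (P * P + Q * Q).coeff (m + m) = 0 := coeff_eq_zero_of_natDegree_lt (by omega)
    rw [coeff_add, coeff_mul_add_eq_of_natDegree_le hP hP, coeff_mul_add_eq_of_natDegree_le hQ hQ] at h1
    have h2 := mul_self_nonneg (P.coeff m)
    have h3 := mul_self_nonneg (Q.coeff m)
    exact ⟨mul_self_eq_zero.1 (by linarith), mul_self_eq_zero.1 (by linarith)⟩
  have lead : ∀ R : ℚ[X], 0 < R.natDegree → R.coeff R.natDegree ≠ 0 := by
    intro R hR
    rw [coeff_natDegree]
    intro h0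
    rw [leadingCoeff_eq_zero] at h0
    rw [h0, natDegree_zero] at hR
    exact lt_irrefl 0 hR
  rcases le_total P.natDegree Q.natDegree with h1 | h1
  · have h2 : Q.natDegree = 0 := by
      by_contra h3
      exact lead Q (Nat.pos_of_ne_zero h3) (key _ (Nat.pos_of_ne_zero h3) h1 le_rfl).2
    omega
  · have h2 : P.natDegree = 0 := by
      by_contra h3
      exact lead P (Nat.pos_of_ne_zero h3) (key _ (Nat.pos_of_ne_zero h3) le_rfl h1).1
    omega

theorem pol_term (c : ℚ) {k : ℕ} (hk : k ≤ 40) : (C c * X ^ k : ℚ[X]).natDegree ≤ 40 :=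
  (natDegree_C_mul_X_pow_le c k).trans hk

theorem pol_sub {P Q : ℚ[X]} (hP : P.natDegree ≤ 40) (hQ : Q.natDegree ≤ 40) :
    (P - Q).natDegree ≤ 40 :=
  (natDegree_sub_le _ _).trans (max_le hP hQ)

theorem pol_perW_deg (N : ℕ) : (perW N (X : ℚ[X])).natDegree ≤ 40 := by
  simp only [perW, perQ]
  compute_degree!

theorem pol_deg (N d : ℕ) (q : ℚ) (x : HV ℚ) : (polP N d q x).natDegree ≤ 40 := by
  unfold polP
  refine natDegree_add_le_of_degree_le (natDegree_add_le_of_degree_le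
    (pol_sub (pol_sub (natDegree_add_le_of_degree_le ?_ ?_) ?_) ?_)
    (pol_term _ (by norm_num))) (pol_term _ (by norm_num))
  · refine (natDegree_C_mul_le _ _).trans ?_
    exact pol_sub (natDegree_add_le_of_degree_le (pol_perW_deg N)
      (pol_term _ (by norm_num))) (pol_term _ (by norm_num))
  · rw [natDegree_C]
    norm_num
  · exact natDegree_sum_le_of_forall_le _ _ fun i _ => pol_term _ (by omega)
  · exact natDegree_sum_le_of_forall_le _ _ fun i _ => pol_term _ (by omega)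

theorem polI_deg (x : HV ℚ) : (polI x).natDegree ≤ 40 := by
  unfold polI
  compute_degree!

theorem polI_coeff (x : HV ℚ) : (polI x).coeff 0 = 0 := by
  simp [polI]

theorem pol_const (N d : ℕ) (q : ℚ) {t : ℝ} (ht : Transcendental ℚ t) (v w : HV ℚ) (c : ℂ)
    (hv : pC N v (polS N d q t) = c) (hw : pC N w (polS N d q t) = c ^ 81) :
    ∃ r : ℚ, c = (r : ℂ) := by
  rw [pol_pC] at hv hw
  have h1 : Complex.normSq c = aeval t (polP N d q v) * aeval t (polP N d q v) +
      aeval t (polI v) * aeval t (polI v) := by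
    rw [← hv, Complex.normSq_add_mul_I]
    ring
  have h2 : Complex.normSq (c ^ 81) = aeval t (polP N d q w) * aeval t (polP N d q w) +
      aeval t (polI w) * aeval t (polI w) := by
    rw [← hw, Complex.normSq_add_mul_I]
    ring
  rw [map_pow, h1] at h2
  have h3 : aeval t ((polP N d q v * polP N d q v + polI v * polI v) ^ 81 -
      (polP N d q w * polP N d q w + polI w * polI w)) = 0 := by
    simp only [map_sub, map_pow, map_add, map_mul]
    rw [h2, sub_self]
  have h4 : (polP N d q v * polP N d q v + polI v * polI v) ^ 81 =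
      polP N d q w * polP N d q w + polI w * polI w := by
    have h5 := (transcendental_iff.1 ht) _ h3
    exact sub_eq_zero.1 h5
  have h6 : (polP N d q w * polP N d q w + polI w * polI w).natDegree ≤ 80 := by
    refine natDegree_add_le_of_degree_le ?_ ?_
    · exact (natDegree_mul_le).trans (by linarith [pol_deg N d q w])
    · exact (natDegree_mul_le).trans (by linarith [polI_deg w])
  have h7 : (polP N d q v * polP N d q v + polI v * polI v).natDegree = 0 := by
    rw [← h4, natDegree_pow] at h6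
    omega
  obtain ⟨h8, h9⟩ := pol_sumsq _ _ h7
  have e1 : (aeval t (polP N d q v) : ℝ) = (((polP N d q v).coeff 0 : ℚ) : ℝ) := by
    conv_lhs => rw [eq_C_of_natDegree_eq_zero h8]
    simp
  have e2 : (aeval t (polI v) : ℝ) = 0 := by
    rw [eq_C_of_natDegree_eq_zero h9, polI_coeff]
    simp
  refine ⟨(polP N d q v).coeff 0, ?_⟩
  rw [← hv, e1, e2]
  simp

/-- For `NS = ℚλ` the transcendental space is the orthogonal complement of `λ`. -/
theorem inT_line {N : ℕ} {s : HV ℂ} {l : HV ℚ} (h : ∀ x, InNS N s x ↔ ∃ c : ℚ, x = c • l)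
    (x : HV ℚ) : InT N s x ↔ pH N x l = 0 := by
  constructor
  · intro hx
    exact hx l ((h l).2 ⟨1, (one_smul _ _).symm⟩)
  · intro hx y hy
    obtain ⟨c, rfl⟩ := (h y).1 hy
    rw [pH_smul_right, hx, mul_zero]

theorem pol_signs {N d : ℕ} {a b : ℤ}
    (hl : pH N (lamH a b d) (lamH a b d) ≠ 0) {t : ℝ} (ht : Transcendental ℚ t)
    (hline : ∀ x, InNS N (polS N d ((b : ℚ) / a) t) x ↔ ∃ c : ℚ, x = c • lamH a b d) :
    OnlySignsL N (polS N d ((b : ℚ) / a) t) := by
  intro φ h1 h2 hc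
  obtain ⟨c, -, hc⟩ := hc
  obtain ⟨t₀, ht₀⟩ : ∃ t₀ : HV ℚ, t₀ = (0, (0, 1), (0, 0), 0, 0, 0) := ⟨_, rfl⟩
  have hperp : InT N (polS N d ((b : ℚ) / a) t) t₀ := by
    rw [inT_line hline, ht₀]
    simp [pH, pR, hU, lamH, e8]
  have hone : pC N t₀ (polS N d ((b : ℚ) / a) t) = 1 := by
    rw [ht₀, pol_pC]
    simp [polP, polI, perE, Fin.sum_univ_eight]
  have hn : ∀ n : ℕ, InT N (polS N d ((b : ℚ) / a) t) ((φ ^ n) t₀) ∧
      pC N ((φ ^ n) t₀) (polS N d ((b : ℚ) / a) t) = c ^ n := by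
    intro n
    induction n with
    | zero =>
      rw [pow_zero, pow_zero, Module.End.one_apply]
      exact ⟨hperp, hone⟩
    | succ n ih =>
      rw [pow_succ' φ, Module.End.mul_apply]
      exact ⟨h1 _ ih.1, by rw [hc _ ih.1, ih.2, pow_succ']⟩
  obtain ⟨r, hr⟩ := pol_const N d ((b : ℚ) / a) ht ((φ ^ 1) t₀) ((φ ^ 81) t₀) c
    (by rw [(hn 1).2, pow_one]) (hn 81).2
  have hall : ∀ t', InT N (polS N d ((b : ℚ) / a) t) t' → φ t' = r • t' := by
    intro t' ht'
    have k1 : InNS N (polS N d ((b : ℚ) / a) t) (φ t' - r • t') := by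
      show pC N (φ t' - r • t') _ = 0
      rw [odd_pC_sub, odd_pC_smul, hc t' ht', hr]
      ring
    obtain ⟨x, hx⟩ := (hline _).1 k1
    have k2 : pH N (φ t' - r • t') (lamH a b d) = 0 := by
      rw [pH_sub_left, pH_smul_left, (inT_line hline _).1 ht', (inT_line hline _).1 (h1 _ ht')]
      ring
    rw [hx, pH_smul_left] at k2
    have k4 : x = 0 := (mul_eq_zero.1 k2).resolve_right hl
    rw [k4, zero_smul] at hx
    exact sub_eq_zero.1 hx
  obtain ⟨u, hu⟩ : ∃ u : HV ℚ, u = (0, (1, 0), (0, 0), 0, 0, 0) := ⟨_, rfl⟩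
  have huperp : InT N (polS N d ((b : ℚ) / a) t) u := by
    rw [inT_line hline, hu]
    simp [pH, pR, hU, lamH, e8]
  have htu : pH N t₀ u = 1 := by
    rw [ht₀, hu]
    simp [pH, pR, hU, e8]
  have hrr : r * r = 1 := by
    have k1 := h2 t₀ u hperp huperp
    rw [hall t₀ hperp, hall u huperp, pH_smul_left, pH_smul_right, htu, mul_one] at k1
    exact k1
  rcases mul_self_eq_one_iff.1 hrr with h3 | h3
  · left
    intro t' ht'
    rw [hall t' ht', h3, one_smul]
  · right
    intro t' ht'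
    rw [hall t' ht', h3, neg_smul, one_smul]

/-- Periods with Picard number one. -/
theorem pol_period {N : ℕ} (hN : 0 < N) {a b : ℤ} {d : ℕ} (ha : a ≠ 0)
    (hl : pH N (lamH a b d) (lamH a b d) ≠ 0) :
    ∃ s, IsPeriod N s ∧ (∀ x, InNS N s x ↔ ∃ c : ℚ, x = c • lamH a b d) ∧ OnlySignsL N s := by
  obtain ⟨t, ht0, ht⟩ := per_exists_transc
  have h := fun x => pol_line (d := d) hN (b := b) ha ht x
  exact ⟨_, pol_isPeriod ht0, h, pol_signs hl ht h⟩

/-- The glue vector for `NS = ℚλ`. -/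
theorem pol_glue {N : ℕ} (hN : 0 < N) {a b : ℤ} {d : ℕ} {s : HV ℂ}
    (h : ∀ x, InNS N s x ↔ ∃ c : ℚ, x = c • lamH a b d) :
    ∃ t : HV ℚ, InT N s t ∧ IntH (t - (2 * (a : ℚ)) • dst N) := by
  have hN0 : (N : ℚ) ≠ 0 := by exact_mod_cast hN.ne'
  refine ⟨(2 * (a : ℚ)) • dst N + ((0, ((2 * b : ℤ) : ℚ)), 0), ?_, ?_⟩
  · rw [inT_line h, pH_add_left, pH_smul_left]
    have e1 : pH N (dst N) (lamH a b d) = -b := by
      simp [pH, pR, hU, e8, dst, dl, lamH]
      field_simp
    have e2 : pH N (((0, ((2 * b : ℤ) : ℚ)), 0) : HV ℚ) (lamH a b d) = 2 * b * a := by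
      simp [pH, pR, hU, e8, lamH]
    rw [e1, e2]
    ring
  · rw [add_sub_cancel_left]
    exact ⟨⟨IsZ.zero, IsZ.int _⟩, IntR.zero⟩

end Pool.Agent.H.MP_072fb1_ag.K3.Pol
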