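import Pool.Agent.H.MP_072fb1_ag.Pol.Sel
import Pool.Agent.H.MP_072fb1_ag.Pol.Sgn
import Pool.Agent.H.MP_072fb1_ag.K3.Trans

/-!
# The classes of periods which are Hodge isometric to a given one
-/

set_option autoImplicit false

namespace Pool.Agent.H.MP_072fb1_ag.K3.Pol


open scoped BigOperators

theorem kiso_symm {N : ℕ} {V : Type*} [AddCommGroup V] [Module ℚ V]
    {κ : LV ℚ →ₗ[ℚ] LV ℚ →ₗ[ℚ] Module.End ℚ V} {M : Submodule ℤ V} {s s' : HV ℂ}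
    (h : KIsomorphicL N κ M s s') : KIsomorphicL N κ M s' s := by
  obtain ⟨ψ, g, h1, h2, ⟨c, hc, h3⟩, h4, h5⟩ := h
  refine ⟨ψ.symm, g.symm, fun x y => ?_, fun x => ?_, ⟨c⁻¹, inv_ne_zero hc, fun x => ?_⟩,
    glue_pres_symm h4, glue_lifts_symm h5⟩
  · rw [← h1, ψ.apply_symm_apply, ψ.apply_symm_apply]
  · rw [← h2, ψ.apply_symm_apply]
  · have h := h3 (ψ.symm x)
    rw [ψ.apply_symm_apply] at h
    rw [h, ← mul_assoc, inv_mul_cancel₀ hc, one_mul]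

theorem kiso_trans {N : ℕ} {V : Type*} [AddCommGroup V] [Module ℚ V]
    {κ : LV ℚ →ₗ[ℚ] LV ℚ →ₗ[ℚ] Module.End ℚ V} {M : Submodule ℤ V} {s s' s'' : HV ℂ}
    (h : KIsomorphicL N κ M s s') (h' : KIsomorphicL N κ M s' s'') :
    KIsomorphicL N κ M s s'' := by
  obtain ⟨ψ, g, h1, h2, ⟨c, hc, h3⟩, h4, h5⟩ := h
  obtain ⟨ψ', g', h1', h2', ⟨c', hc', h3'⟩, h4', h5'⟩ := h'
  refine ⟨ψ.trans ψ', g.trans g', fun x y => ?_, fun x => ?_,
    ⟨c' * c, mul_ne_zero hc' hc, fun x => ?_⟩, fun v => ?_, fun x y v => ?_⟩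
  · rw [LinearEquiv.trans_apply, LinearEquiv.trans_apply, h1', h1]
  · rw [LinearEquiv.trans_apply, h2', h2]
  · rw [LinearEquiv.trans_apply, h3', h3, mul_assoc]
  · exact (h4' (g v)).trans (h4 v)
  · rw [LinearEquiv.trans_apply, h5, h5']
    rfl

/-- The set of indices `i + 1`, `i ∈ A`. -/
def up {m : ℕ} (A : Finset (Fin m)) : Finset (Fin (m + 1)) := A.map (Fin.succEmb m)

theorem up_zero {m : ℕ} (A : Finset (Fin m)) : 0 ∉ up A := by
  intro h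
  obtain ⟨i, -, hi⟩ := Finset.mem_map.1 h
  exact Fin.succ_ne_zero i hi

theorem up_surj {m : ℕ} {S : Finset (Fin (m + 1))} (h : 0 ∉ S) : ∃ A, up A = S := by
  classical
  refine ⟨Finset.univ.filter fun i => i.succ ∈ S, ?_⟩
  ext i
  refine Fin.cases ?_ (fun j => ?_) i
  · exact ⟨fun h' => absurd h' (up_zero _), fun h' => absurd h' h⟩
  · constructor
    · intro h'
      obtain ⟨k, hk, hk'⟩ := Finset.mem_map.1 h'
      have : k = j := Fin.succ_injective _ hk'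
      subst this
      exact (Finset.mem_filter.1 hk).2
    · intro h'
      exact Finset.mem_map.2 ⟨j, Finset.mem_filter.2 ⟨Finset.mem_univ _, h'⟩, rfl⟩

theorem many_classes (m r : ℕ) (q : Fin (m + 1) → ℕ) (hr0 : 0 < r) (hq : ∀ i, 2 < q i)
    (hr : ∀ i, r.Coprime (q i)) (hc : ∀ i j, i ≠ j → (q i).Coprime (q j)) :
    ∃ (V : Type) (_ : AddCommGroup V) (_ : Module ℚ V) (κ : LV ℚ → LV ℚ → V → V)
      (M : Submodule ℤ V), K3Datum (r * ∏ i, q i) κ M ∧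
      ∀ s, IsPeriod (r * ∏ i, q i) s → OnlySigns (r * ∏ i, q i) s →
        (∃ (k : ℤ) (t : HV ℚ), (∀ i, IsCoprime k (q i : ℤ)) ∧ InT (r * ∏ i, q i) s t ∧
          IntH (t - (2 * (k : ℚ)) • dst (r * ∏ i, q i))) →
        ∃ σ : Finset (Fin m) → HV ℂ,
          (∀ A, IsPeriod (r * ∏ i, q i) (σ A) ∧ ∃ γ, HodgeIsometry (r * ∏ i, q i) s (σ A) γ) ∧
          (∀ A B, A ≠ B → ∀ (W : Type) [AddCommGroup W] [Module ℚ W]
            (κ' : LV ℚ → LV ℚ → W → W) (M' : Submodule ℤ W), K3Datum (r * ∏ i, q i) κ' M' →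
            ¬ KIsomorphic (r * ∏ i, q i) κ' M' (σ A) (σ B)) ∧
          (r ≤ 2 → (∀ i, IsPrimePow (q i)) → ∀ s' γ, HodgeIsometry (r * ∏ i, q i) s s' γ →
            ∃! A, KIsomorphic (r * ∏ i, q i) κ M (σ A) s') := by
  have hN : 0 < r * ∏ i, q i := Nat.mul_pos hr0 (Finset.prod_pos fun i _ => by
    have := hq i
    omega)
  obtain ⟨V, i1, i2, κ, M, hD, hK⟩ := trans_datum hN
  refine ⟨V, i1, i2, κ, M, hD, fun s hs hsig hdl => ?_⟩
  obtain ⟨k, t, hk, ht, hkt⟩ := hdl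
  have hex := fun A : Finset (Fin m) => al_exists hN (sel_mul (up A)) (sel_coprime hr hc (up A)) hs
  choose σ γ ε h1 h2 h3 h4 h5 h6 using hex
  have hlow : ∀ A B, A ≠ B → ∀ (W : Type) [AddCommGroup W] [Module ℚ W]
      (κ' : LV ℚ → LV ℚ → W → W) (M' : Submodule ℤ W), K3Datum (r * ∏ i, q i) κ' M' →
      ¬ KIsomorphic (r * ∏ i, q i) κ' M' (σ A) (σ B) := by
    intro A B hAB W _ _ κ' M' hD' hK'
    have h := many_lower hN hsig.toL ht hkt (h2 A) (h2 B) (h3 A) (h3 B) (h4 A) hD'.toL (hK'.toL hD')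
    exact sel_distinct hq (fun h' => hAB (Finset.map_injective _ h')) (up_zero A) (up_zero B)
      (h5 A) (h6 A) (h5 B) (h6 B) hk h
  refine ⟨σ, fun A => ⟨h1 A, γ A, (h2 A).toF⟩, hlow, fun hr2 hp s' γ' hγ' => ?_⟩
  obtain ⟨u, j, h, hh, hu, huj⟩ := dual_split hN hγ'.toL.1 hγ'.toL.2.1
  have hact : ActsBy (r * ∏ i, q i) hγ'.toE u := by
    unfold ActsBy
    rw [hu, add_sub_cancel_right]
    exact hh
  obtain ⟨S, hS, hsel⟩ := sel_cover hr2 hr hc hr0 hp huj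
  obtain ⟨A, rfl⟩ := up_surj hS
  obtain ⟨γ'', hγ'', hint⟩ := many_upper hN (h2 A) hγ'.toL (h3 A) hact (h4 A)
    (hsel (ε A) (h5 A) (h6 A))
  have hA : KIsomorphic (r * ∏ i, q i) κ M (σ A) s' := hK _ _ _ hγ''.toF hint
  refine ⟨A, hA, fun B hB => ?_⟩
  by_contra hne
  have h := kiso_trans ((hB : KIsomorphic (r * ∏ i, q i) κ M (σ B) s').toL hD)
    (kiso_symm (hA.toL hD))
  exact sel_distinct hq (fun h' => hne (Finset.map_injective _ h')) (up_zero B) (up_zero A)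
    (h5 B) (h6 B) (h5 A) (h6 A) hk
    (many_lower hN hsig.toL ht hkt (h2 B) (h2 A) (h3 B) (h3 A) (h4 B) hD.toL h)

theorem primes_exist (m : ℕ) : ∃ q : Fin (m + 1) → ℕ, (∀ i, 2 < q i) ∧
    (∀ i j, i ≠ j → (q i).Coprime (q j)) ∧ ∀ i, IsPrimePow (q i) := by
  have hmono := Nat.nth_strictMono Nat.infinite_setOfPred_prime
  refine ⟨fun i => Nat.nth Nat.Prime (i + 1), fun i => ?_, fun i j hij => ?_, fun i => ?_⟩
  · have h1 : Nat.nth Nat.Prime 0 < Nat.nth Nat.Prime (i + 1) := hmono (Nat.succ_pos _)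
    rw [Nat.nth_prime_zero_eq_two] at h1
    exact h1
  · rw [Nat.coprime_primes (Nat.prime_nth_prime _) (Nat.prime_nth_prime _)]
    intro h
    apply hij
    have := hmono.injective h
    exact Fin.ext (by omega)
  · exact (Nat.prime_nth_prime _).isPrimePow

theorem pol_exists {N : ℕ} (hN : 0 < N) {a b : ℤ} {d : ℕ} (ha : a ≠ 0)
    (hl : pH N (lamH a b d) (lamH a b d) ≠ 0) :
    ∃ s, IsPeriod N s ∧ (∀ x, InNS N s x ↔ ∃ c : ℚ, x = c • lamH a b d) ∧ OnlySigns N s := by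
  obtain ⟨s, h1, h2, h3⟩ := pol_period hN ha hl
  exact ⟨s, h1, h2, h3.toF⟩

theorem many_unbounded (m : ℕ) :
    ∃ N : ℕ, 0 < N ∧ ∃ σ : Finset (Fin m) → HV ℂ,
      (∀ A, IsPeriod N (σ A) ∧ ∃ l : HV ℚ, 0 < pH N l l ∧
        ∀ x, InNS N (σ A) x ↔ ∃ c : ℚ, x = c • l) ∧
      (∀ A B, ∃ γ, HodgeIsometry N (σ A) (σ B) γ) ∧
      ∀ A B, A ≠ B → ∀ (W : Type) [AddCommGroup W] [Module ℚ W]
        (κ : LV ℚ → LV ℚ → W → W) (M : Submodule ℤ W), K3Datum N κ M →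
        ¬ KIsomorphic N κ M (σ A) (σ B) := by
  obtain ⟨q, hq, hc, hp⟩ := primes_exist m
  have hN : 0 < 1 * ∏ i, q i := Nat.mul_pos one_pos (Finset.prod_pos fun i _ => by
    have := hq i
    omega)
  obtain ⟨V, i1, i2, κ, M, hD, h⟩ := many_classes m 1 q one_pos hq
    (fun i => Nat.coprime_one_left _) hc
  have hpos : pH (1 * ∏ i, q i) (lamH 1 0 1) (lamH 1 0 1) = 2 := by
    simp [pH, pR, hU, e8, lamH]
    norm_num
  obtain ⟨s, hs, hNS, hsig⟩ := pol_exists (a := 1) (b := 0) (d := 1) hN one_ne_zero (by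
    rw [hpos]
    norm_num)
  obtain ⟨t, ht, hkt⟩ := pol_glue hN hNS
  obtain ⟨σ, h1, h2, -⟩ := h s hs hsig ⟨1, t, fun i => isCoprime_one_left, ht, hkt⟩
  refine ⟨_, hN, σ, fun A => ⟨(h1 A).1, ?_⟩, fun A B => ?_, h2⟩
  · obtain ⟨γ, hγ⟩ := (h1 A).2
    refine ⟨γ (lamH 1 0 1), ?_, fun x => ?_⟩
    · rw [hγ.isometry, hpos]
      norm_num
    · obtain ⟨y, rfl⟩ := hγ.bij.surjective x
      obtain ⟨c, hc0, hc'⟩ := hγ.hodge
      have e : InNS (1 * ∏ i, q i) (σ A) (γ y) ↔ InNS (1 * ∏ i, q i) s y := by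
        show pC _ _ _ = 0 ↔ pC _ _ _ = 0
        rw [hc', mul_eq_zero]
        exact ⟨fun h' => h'.resolve_left hc0, fun h' => Or.inr h'⟩
      rw [e, hNS]
      constructor
      · rintro ⟨c, rfl⟩
        exact ⟨c, hγ.smul _ _⟩
      · rintro ⟨c, hc⟩
        refine ⟨c, hγ.bij.injective ?_⟩
        rw [hc, hγ.smul]
  · obtain ⟨γ, hγ⟩ := (h1 A).2
    obtain ⟨γ', hγ'⟩ := (h1 B).2
    exact ⟨_, (hodge_trans (hodge_symm hγ.toL) hγ'.toL).toF⟩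

end Pool.Agent.H.MP_072fb1_ag.K3.Pol
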