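import Pool.Agent.H.MP_072fb1_ag.K3.Per
import Pool.Agent.H.MP_072fb1_ag.K3.Lin

/-!
# Periods with `NS = ℚλ`, `λ = a (e + d f) + b δ`, and no Hodge isometries besides `±1`
-/

set_option autoImplicit false

namespace Pool.Agent.H.MP_072fb1_ag.K3.Pol

open Polynomial

/-- The polarisation `a (e + d f) + b δ`, `e`, `f` the basis of `U₁`. -/
def lamH (a b : ℤ) (d : ℕ) : HV ℚ := (((a : ℚ), (a : ℚ) * d), (0, 0), (0, 0), 0, 0, (b : ℚ))

/-- The coordinate `W`. -/
def polW {K : Type*} [CommRing K] (N d : ℕ) (q u : K) : K :=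
  perW N u + (d : K) * u ^ 40 - 2 * (N : K) * q * u ^ 39

/-- The period. -/
noncomputable def polS (N d : ℕ) (q : ℚ) (t : ℝ) : HV ℂ :=
  (((t : ℂ) ^ 20, -((d : ℂ) * (t : ℂ) ^ 20) + 2 * (N : ℂ) * (q : ℂ) * (t : ℂ) ^ 19),
    (1, polW N d (q : ℂ) (t : ℂ)), (Complex.I * t, Complex.I * t ^ 2),
    (fun i : Fin 8 => (t : ℂ) ^ (3 + (i : ℕ))), (fun i : Fin 8 => (t : ℂ) ^ (11 + (i : ℕ))),
    (t : ℂ) ^ 19)

/-- The polynomial of the real part. -/
noncomputable def polP (N d : ℕ) (q : ℚ) (x : HV ℚ) : ℚ[X] :=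
  C x.2.1.1 * (perW N X + C (d : ℚ) * X ^ 40 - C (2 * (N : ℚ) * q) * X ^ 39) + C x.2.1.2 -
    (∑ i : Fin 8, C (perE x.2.2.2.1 i) * X ^ (3 + (i : ℕ))) -
    (∑ i : Fin 8, C (perE x.2.2.2.2.1 i) * X ^ (11 + (i : ℕ))) +
    C (2 * (N : ℚ) * (q * x.1.1 - x.2.2.2.2.2)) * X ^ 19 + C (x.1.2 - d * x.1.1) * X ^ 20

/-- The polynomial of the imaginary part. -/
noncomputable def polI (x : HV ℚ) : ℚ[X] := C x.2.2.1.1 * X ^ 2 + C x.2.2.1.2 * X

theorem pol_pC (N d : ℕ) (q : ℚ) (t : ℝ) (x : HV ℚ) : pC N x (polS N d q t) =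
    ((aeval t (polP N d q x) : ℝ) : ℂ) + ((aeval t (polI x) : ℝ) : ℂ) * Complex.I := by
  unfold pC pH pR
  simp only [polS, cc, per_e8_lin]
  simp [polP, polI, polW, hU, perW, perQ, Fin.sum_univ_succ]
  ring

theorem pol_isPeriod {N d : ℕ} {q : ℚ} {t : ℝ} (ht : 0 < t) : IsPeriod N (polS N d q t) := by
  constructor
  · unfold pH pR
    simp only [polS, per_e8]
    simp only [hU, polW, perW]
    ring_nf
    simp only [Complex.I_sq]
    ring
  · have h : pH N (polS N d q t) (star (polS N d q t)) = ((4 * t ^ 3 : ℝ) : ℂ) := by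
      have e2 : star (polS N d q t) = (((t : ℂ) ^ 20, -((d : ℂ) * (t : ℂ) ^ 20) +
          2 * (N : ℂ) * (q : ℂ) * (t : ℂ) ^ 19), (1, polW N d (q : ℂ) (t : ℂ)),
          (-(Complex.I * t), -(Complex.I * t ^ 2)), (fun i : Fin 8 => (t : ℂ) ^ (3 + (i : ℕ))),
          (fun i : Fin 8 => (t : ℂ) ^ (11 + (i : ℕ))), (t : ℂ) ^ 19) := by
        refine Prod.ext (Prod.ext ?_ ?_) (Prod.ext (Prod.ext ?_ ?_) (Prod.ext (Prod.ext ?_ ?_)
          (Prod.ext (funext fun i => ?_) (Prod.ext (funext fun i => ?_) ?_)))) <;>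
          simp [polS, polW, perW, perQ]
      rw [e2]
      unfold pH pR
      simp only [polS, per_e8]
      simp only [hU, polW, perW]
      push_cast
      ring_nf
      simp only [Complex.I_sq]
      ring
    rw [h, Complex.ofReal_re]
    positivity

theorem pol_coeffs {N d : ℕ} (hN : 0 < N) {q : ℚ} {x : HV ℚ} (h : polP N d q x = 0) :
    x.2.1 = 0 ∧ x.2.2.2.1 = 0 ∧ x.2.2.2.2.1 = 0 ∧ x.2.2.2.2.2 = q * x.1.1 ∧
      x.1.2 = d * x.1.1 := by
  have hN' : (N : ℚ) ≠ 0 := by exact_mod_cast hN.ne'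
  have hc : ∀ k : ℕ, (polP N d q x).coeff k = 0 := fun k => by rw [h, coeff_zero]
  have e : polP N d q x = C x.2.1.1 * (X ^ 3 + (X ^ 6 + X ^ 12 + X ^ 14 + X ^ 16 + X ^ 18 +
      X ^ 20 - X ^ 11 - X ^ 13 - X ^ 15 - X ^ 17 - X ^ 19) + (X ^ 22 + X ^ 28 + X ^ 30 + X ^ 32 +
      X ^ 34 + X ^ 36 - X ^ 27 - X ^ 29 - X ^ 31 - X ^ 33 - X ^ 35) + C (N : ℚ) * X ^ 38 +
      C (d : ℚ) * X ^ 40 - C (2 * (N : ℚ) * q) * X ^ 39) + C x.2.1.2 -
      (∑ i : Fin 8, C (perE x.2.2.2.1 i) * X ^ (3 + (i : ℕ))) -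
      (∑ i : Fin 8, C (perE x.2.2.2.2.1 i) * X ^ (11 + (i : ℕ))) +
      C (2 * (N : ℚ) * (q * x.1.1 - x.2.2.2.2.2)) * X ^ 19 + C (x.1.2 - d * x.1.1) * X ^ 20 := by
    simp only [polP, perW, perQ, map_natCast]
    ring
  rw [e] at hc
  simp only [Fin.sum_univ_eight] at hc
  generalize hcc : 2 * (N : ℚ) * (q * x.1.1 - x.2.2.2.2.2) = c at hc
  generalize hdd : x.1.2 - d * x.1.1 = c' at hc
  generalize hee : 2 * (N : ℚ) * q = c'' at hc
  have ha := hc 38
  simp [coeff_X_pow] at ha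
  have ha : x.2.1.1 = 0 := by
    rcases ha with ha | ha
    · exact ha
    · exact absurd ha hN.ne'
  simp only [ha, map_zero, zero_mul, zero_add] at hc
  have hb := hc 0
  simp [coeff_X_pow, coeff_C] at hb
  have p0 := hc 3
  have p1 := hc 4
  have p2 := hc 5
  have p3 := hc 6
  have p4 := hc 7
  have p5 := hc 8
  have p6 := hc 9
  have p7 := hc 10
  have q0 := hc 11
  have q1 := hc 12
  have q2 := hc 13
  have q3 := hc 14
  have q4 := hc 15
  have q5 := hc 16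
  have q6 := hc 17
  have q7 := hc 18
  have r := hc 19
  have r' := hc 20
  simp [coeff_X_pow] at p0 p1 p2 p3 p4 p5 p6 p7 q0 q1 q2 q3 q4 q5 q6 q7 r r'
  refine ⟨Prod.ext ha hb, perE_zero ?_, perE_zero ?_, ?_, ?_⟩
  · intro i
    fin_cases i <;> simp <;> assumption
  · intro i
    fin_cases i <;> simp <;> assumption
  · rw [r] at hcc
    have h2 : 2 * (N : ℚ) ≠ 0 := mul_ne_zero two_ne_zero hN'
    have h3 := (mul_eq_zero.1 hcc).resolve_left h2
    linarith
  · rw [r'] at hdd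
    linarith

theorem polI_zero {x : HV ℚ} (h : polI x = 0) : x.2.2.1 = 0 := by
  refine Prod.ext ?_ ?_
  · have := congrArg (fun q : ℚ[X] => q.coeff 2) h
    simpa [polI, coeff_X, coeff_X_pow] using this
  · have := congrArg (fun q : ℚ[X] => q.coeff 1) h
    simpa [polI, coeff_X, coeff_X_pow] using this

theorem pol_zero {N d : ℕ} {q : ℚ} {t : ℝ} (ht : Transcendental ℚ t) {x : HV ℚ}
    (h : pC N x (polS N d q t) = 0) : polP N d q x = 0 ∧ polI x = 0 := by
  rw [pol_pC] at h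
  have hre : (aeval t (polP N d q x) : ℝ) = 0 := by
    have := congrArg Complex.re h
    simpa only [Complex.add_re, Complex.mul_re, Complex.ofReal_re, Complex.ofReal_im,
      Complex.I_re, Complex.I_im, mul_zero, zero_mul, sub_zero, add_zero, Complex.zero_re]
      using this
  have him : (aeval t (polI x) : ℝ) = 0 := by
    have := congrArg Complex.im h
    simpa only [Complex.add_im, Complex.mul_im, Complex.ofReal_re, Complex.ofReal_im,
      Complex.I_re, Complex.I_im, mul_zero, zero_mul, mul_one, zero_add, add_zero,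
      Complex.zero_im] using this
  exact ⟨(transcendental_iff.1 ht) _ hre, (transcendental_iff.1 ht) _ him⟩

theorem pol_line {N d : ℕ} (hN : 0 < N) {a b : ℤ} (ha : a ≠ 0) {t : ℝ} (ht : Transcendental ℚ t)
    (x : HV ℚ) : InNS N (polS N d ((b : ℚ) / a) t) x ↔ ∃ c : ℚ, x = c • lamH a b d := by
  have haQ : (a : ℚ) ≠ 0 := by exact_mod_cast ha
  constructor
  · intro h
    obtain ⟨h1, h2⟩ := pol_zero ht (show pC N x (polS N d ((b : ℚ) / a) t) = 0 from h)
    obtain ⟨c1, c2, c3, c4, c5⟩ := pol_coeffs hN h1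
    have c6 := polI_zero h2
    refine ⟨x.1.1 / a, Prod.ext (Prod.ext ?_ ?_) (Prod.ext ?_ (Prod.ext ?_ (Prod.ext ?_
      (Prod.ext ?_ ?_))))⟩
    · simp [lamH]
      field_simp
    · rw [c5]
      simp [lamH]
      field_simp
    · rw [c1]
      simp [lamH]
      rfl
    · rw [c6]
      simp [lamH]
      rfl
    · rw [c2]
      simp [lamH]
    · rw [c3]
      simp [lamH]
    · rw [c4]
      simp [lamH]
      field_simp
  · rintro ⟨c, rfl⟩
    show pC N _ _ = 0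
    have hP : polP N d ((b : ℚ) / a) (c • lamH a b d) = 0 := by
      have e1 : 2 * (N : ℚ) * ((b : ℚ) / a * (c * a) - c * b) = 0 := by
        field_simp
        ring
      have e2 : c * ((a : ℚ) * d) - d * (c * a) = 0 := by ring
      simp only [polP, lamH, Prod.smul_mk, smul_eq_mul, mul_zero, smul_zero, e1, e2]
      simp [perE, Fin.sum_univ_eight]
    have hI : polI (c • lamH a b d) = 0 := by
      simp [polI, lamH]
    rw [pol_pC, hP, hI]
    simp

end Pool.Agent.H.MP_072fb1_ag.K3.Pol
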