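import Pool.Agent.H.MP_072fb1_ag.Pol.Acts

/-!
# The Atkin-Lehner isometries and their signs
-/

set_option autoImplicit false

namespace Pool.Agent.H.MP_072fb1_ag.K3.Pol


open scoped BigOperators

theorem al_exists {q q' N : ℕ} (hN : 0 < N) (hqq : q * q' = N) (hc : q.Coprime q') {s : HV ℂ}
    (hs : IsPeriod N s) :
    ∃ (s' : HV ℂ) (γ : HV ℚ ≃ₗ[ℚ] HV ℚ) (ε : ℤ), IsPeriod N s' ∧ HodgeIsometryL N s s' γ ∧
      ActsBy N γ ε ∧ (N : ℤ) * 4 ∣ ε ^ 2 - 1 ∧ (q : ℤ) ∣ ε + 1 ∧ (q' : ℤ) ∣ ε - 1 := by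
  subst hqq
  obtain ⟨w, z, hwz⟩ : ∃ w z : ℤ, (q : ℤ) * w - q' * z = 1 := by
    obtain ⟨a, b, hab⟩ := Nat.isCoprime_iff_coprime.mpr hc
    exact ⟨a, -b, by linarith⟩
  have hQ : (q : ℚ) * w - q' * z = 1 := by exact_mod_cast hwz
  have hC : (q : ℂ) * w - q' * z = 1 := by exact_mod_cast hwz
  have hq0 : (q : ℚ) ≠ 0 := by
    have : q ≠ 0 := by
      rintro rfl
      simp at hN
    exact_mod_cast this
  have hq0' : (q' : ℚ) ≠ 0 := by
    have : q' ≠ 0 := by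
      rintro rfl
      simp at hN
    exact_mod_cast this
  let γ : HV ℚ ≃ₗ[ℚ] HV ℚ :=
    { toFun := alMap (q : ℚ) q' w z
      map_add' := alMap_add _ _ _ _
      map_smul' := fun t x => alMap_smul _ _ _ _ t x
      invFun := alInv (q : ℚ) q' w z
      left_inv := alInv_left hQ
      right_inv := alInv_right hQ }
  have hγ : ∀ x, γ x = alMap (q : ℚ) q' w z x := fun _ => rfl
  refine ⟨alMap (q : ℂ) q' w z s, γ, q * w + q' * z, ⟨?_, ?_⟩, ⟨?_, ?_, 1, one_ne_zero, ?_⟩,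
    ?_, ?_, ?_, ?_⟩
  · rw [al_isom hC]
    exact hs.1
  · rw [al_star, al_isom hC]
    exact hs.2
  · intro x y
    rw [hγ, hγ, al_isom hQ]
  · intro x
    constructor
    · intro h
      have h1 := al_int_inv (q := q) (q' := q') (w := w) (z := z) h
      rw [hγ, alInv_left hQ] at h1
      exact h1
    · intro h
      exact al_int h
  · intro x
    unfold pC
    rw [hγ, al_cc, al_isom hC, one_mul]
  · unfold ActsBy
    have e : γ (dst (q * q')) - ((q * w + q' * z : ℤ) : ℚ) • dst (q * q') =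
        ((0, ((z : ℚ), (w : ℚ)), 0, 0, 0, 0) : HV ℚ) := by
      rw [hγ]
      refine Prod.ext ?_ (Prod.ext (Prod.ext ?_ ?_) (Prod.ext ?_ (Prod.ext ?_ (Prod.ext ?_ ?_))))
      · simp [alMap, dst, dl]
      · simp [alMap, dst, dl]
        field_simp
      · simp [alMap, dst, dl]
        field_simp
      · simp [alMap, dst, dl]
      · simp [alMap, dst, dl]
      · simp [alMap, dst, dl]
      · simp [alMap, dst, dl]
    rw [e]
    exact ⟨⟨IsZ.zero, IsZ.zero⟩, ⟨IsZ.int z, IsZ.int w⟩, ⟨IsZ.zero, IsZ.zero⟩,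
      fun _ => IsZ.zero, fun _ => IsZ.zero, IsZ.zero⟩
  · refine ⟨w * z, ?_⟩
    push_cast
    linear_combination ((q : ℤ) * w - q' * z + 1) * hwz
  · exact ⟨2 * w, by linear_combination (-1 : ℤ) * hwz⟩
  · exact ⟨2 * z, by linear_combination hwz⟩

section Select

variable {m r : ℕ} {q : Fin (m + 1) → ℕ}

theorem sel_coprime (hr : ∀ i, r.Coprime (q i)) (hc : ∀ i j, i ≠ j → (q i).Coprime (q j))
    (S : Finset (Fin (m + 1))) : (∏ i ∈ S, q i).Coprime (r * ∏ i ∈ Sᶜ, q i) := by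
  refine Nat.Coprime.prod_left fun i hi => Nat.Coprime.mul_right (hr i).symm
    (Nat.Coprime.prod_right fun j hj => hc i j ?_)
  rintro rfl
  exact (Finset.mem_compl.1 hj) hi

theorem sel_mul (S : Finset (Fin (m + 1))) :
    (∏ i ∈ S, q i) * (r * ∏ i ∈ Sᶜ, q i) = r * ∏ i, q i := by
  rw [← Finset.prod_mul_prod_compl S q]
  ring

theorem sel_dvd {S : Finset (Fin (m + 1))} {i : Fin (m + 1)} (hi : i ∈ S) {x : ℤ}
    (h : ((∏ i ∈ S, q i : ℕ) : ℤ) ∣ x) : (q i : ℤ) ∣ x :=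
  (Int.natCast_dvd_natCast.2 (Finset.dvd_prod_of_mem q hi)).trans h

theorem sel_dvd' {S : Finset (Fin (m + 1))} {i : Fin (m + 1)} (hi : i ∈ S) {x : ℤ}
    (h : ((r * ∏ i ∈ S, q i : ℕ) : ℤ) ∣ x) : (q i : ℤ) ∣ x :=
  (Int.natCast_dvd_natCast.2 ((Finset.dvd_prod_of_mem q hi).mul_left r)).trans h

theorem sel_no2 (hq : ∀ i, 2 < q i) (i : Fin (m + 1)) : ¬ (q i : ℤ) ∣ 2 := by
  intro h
  have h1 : q i ∣ 2 := by exact_mod_cast h
  have h2 := Nat.le_of_dvd two_pos h1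
  have h3 := hq i
  omega

/-- Distinct sets of indices without `0` have signs which differ modulo `N`, also up to sign. -/
theorem sel_distinct (hq : ∀ i, 2 < q i) {S T : Finset (Fin (m + 1))} (hST : S ≠ T)
    (hS : 0 ∉ S) (hT : 0 ∉ T) {a b : ℤ} (a1 : ((∏ i ∈ S, q i : ℕ) : ℤ) ∣ a + 1)
    (a2 : ((r * ∏ i ∈ Sᶜ, q i : ℕ) : ℤ) ∣ a - 1) (b1 : ((∏ i ∈ T, q i : ℕ) : ℤ) ∣ b + 1)
    (b2 : ((r * ∏ i ∈ Tᶜ, q i : ℕ) : ℤ) ∣ b - 1)
    {k : ℤ} (hk : ∀ i, IsCoprime k (q i : ℤ))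
    (h : ((r * ∏ i, q i : ℕ) : ℤ) ∣ k * (b - a) ∨ ((r * ∏ i, q i : ℕ) : ℤ) ∣ k * (b + a)) :
    False := by
  rcases h with h | h
  · have hex : ∃ i, ¬ (i ∈ S ↔ i ∈ T) := by
      by_contra hcon
      push Not at hcon
      exact hST (Finset.ext hcon)
    obtain ⟨i, hi⟩ := hex
    have hi0 := (hk i).symm.dvd_of_dvd_mul_left (sel_dvd' (Finset.mem_univ i) h)
    by_cases hiS : i ∈ S
    · have hiT : i ∈ Tᶜ := Finset.mem_compl.2 fun h' => hi ⟨fun _ => h', fun _ => hiS⟩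
      have h1 := sel_dvd hiS a1
      have h2 := sel_dvd' hiT b2
      refine sel_no2 hq i ?_
      have h3 := (h1.add hi0).sub h2
      ring_nf at h3
      exact h3
    · have hiS' : i ∈ Sᶜ := Finset.mem_compl.2 hiS
      have hiT : i ∈ T := by
        by_contra h'
        exact hi ⟨fun h'' => absurd h'' hiS, fun h'' => absurd h'' h'⟩
      have h1 := sel_dvd' hiS' a2
      have h2 := sel_dvd hiT b1
      refine sel_no2 hq i ?_
      have h3 := (h2.sub hi0).sub h1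
      ring_nf at h3
      exact h3
  · have h1 := sel_dvd' (Finset.mem_compl.2 hS) a2
    have h2 := sel_dvd' (Finset.mem_compl.2 hT) b2
    have h0 := (hk 0).symm.dvd_of_dvd_mul_left (sel_dvd' (Finset.mem_univ (0 : Fin (m + 1))) h)
    refine sel_no2 hq 0 ?_
    have h3 := (h0.sub h1).sub h2
    ring_nf at h3
    exact h3

theorem sel_prod_dvd (hr : ∀ i, r.Coprime (q i)) (hc : ∀ i j, i ≠ j → (q i).Coprime (q j)) {x : ℤ}
    (h0 : (r : ℤ) ∣ x) (h : ∀ i, (q i : ℤ) ∣ x) : ((r * ∏ i, q i : ℕ) : ℤ) ∣ x := by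
  have h1 : ((∏ i, q i : ℕ) : ℤ) ∣ x := by
    push_cast
    exact Finset.prod_dvd_of_coprime (fun i _ j _ hij => Nat.isCoprime_iff_coprime.2 (hc i j hij))
      fun i _ => h i
  have h2 : IsCoprime (r : ℤ) ((∏ i, q i : ℕ) : ℤ) :=
    Nat.isCoprime_iff_coprime.2 (Nat.Coprime.prod_right fun i _ => hr i)
  have h3 := h2.mul_dvd h0 h1
  push_cast at h3 ⊢
  exact h3

/-- A square root of `1` modulo `4N` is, modulo `N` and up to sign, one of the signs. -/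
theorem sel_cover (hr2 : r ≤ 2) (hr : ∀ i, r.Coprime (q i))
    (hc : ∀ i j, i ≠ j → (q i).Coprime (q j)) (hr0 : 0 < r)
    (hp : ∀ i, IsPrimePow (q i)) {u j : ℤ}
    (hu : u ^ 2 = 1 + 4 * ((r * ∏ i, q i : ℕ) : ℤ) * j) :
    ∃ S : Finset (Fin (m + 1)), 0 ∉ S ∧ ∀ a : ℤ, ((∏ i ∈ S, q i : ℕ) : ℤ) ∣ a + 1 →
      ((r * ∏ i ∈ Sᶜ, q i : ℕ) : ℤ) ∣ a - 1 →
      ((r * ∏ i, q i : ℕ) : ℤ) ∣ u - a ∨ ((r * ∏ i, q i : ℕ) : ℤ) ∣ u + a := by
  classical
  have hodd : ¬ (2 : ℤ) ∣ u := by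
    rintro ⟨v, rfl⟩
    have : (2 : ℤ) ∣ 1 := ⟨2 * v ^ 2 - 2 * ((r * ∏ i, q i : ℕ) : ℤ) * j, by linarith⟩
    omega
  obtain ⟨v, hv⟩ : ∃ v, u = 2 * v + 1 := ⟨u / 2, by omega⟩
  have hvv : v * (v + 1) = ((r * ∏ i, q i : ℕ) : ℤ) * j := by
    rw [hv] at hu
    linarith
  have hcop : Nat.Coprime v.natAbs (v + 1).natAbs :=
    Int.isCoprime_iff_gcd_eq_one.1 (⟨-1, 1, by ring⟩ : IsCoprime v (v + 1))
  have hdiv : ∀ i, (q i : ℤ) ∣ u - 1 ∨ (q i : ℤ) ∣ u + 1 := by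
    intro i
    have h1 : (q i : ℤ) ∣ v * (v + 1) := by
      rw [hvv]
      exact Dvd.dvd.mul_right (Int.natCast_dvd_natCast.2
        ((Finset.dvd_prod_of_mem q (Finset.mem_univ i)).mul_left r)) j
    have h2 : q i ∣ v.natAbs * (v + 1).natAbs := by
      rw [← Int.natAbs_mul]
      exact Int.natCast_dvd.1 h1
    rcases (Nat.Coprime.isPrimePow_dvd_mul hcop (hp i)).1 h2 with h3 | h3
    · left
      have h4 := Int.natCast_dvd.2 h3
      rw [hv, show 2 * v + 1 - 1 = v * 2 by ring]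
      exact h4.mul_right 2
    · right
      have h4 := Int.natCast_dvd.2 h3
      rw [hv, show 2 * v + 1 + 1 = (v + 1) * 2 by ring]
      exact h4.mul_right 2
  have hrdiv : ∀ (S : Finset (Fin (m + 1))) (a : ℤ), ((r * ∏ i ∈ Sᶜ, q i : ℕ) : ℤ) ∣ a - 1 →
      (r : ℤ) ∣ u - a ∧ (r : ℤ) ∣ u + a := by
    intro S a ha
    have h1 : (r : ℤ) ∣ a - 1 := (Int.natCast_dvd_natCast.2 (Dvd.intro _ rfl)).trans ha
    obtain rfl | rfl : r = 1 ∨ r = 2 := by omega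
    · simp
    · push_cast at h1 ⊢
      omega
  by_cases h0 : (q 0 : ℤ) ∣ u - 1
  · refine ⟨Finset.univ.filter fun i => ¬ (q i : ℤ) ∣ u - 1, by simp [h0], fun a a1 a2 => ?_⟩
    left
    refine sel_prod_dvd hr hc (hrdiv _ a a2).1 fun i => ?_
    by_cases hi : (q i : ℤ) ∣ u - 1
    · have hm : i ∈ (Finset.univ.filter fun i => ¬ (q i : ℤ) ∣ u - 1)ᶜ := by simp [hi]
      have h1 := hi.sub (sel_dvd' hm a2)
      have e : u - 1 - (a - 1) = u - a := by ring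
      rwa [e] at h1
    · have hm : i ∈ (Finset.univ.filter fun i => ¬ (q i : ℤ) ∣ u - 1) := by simp [hi]
      have h1 := ((hdiv i).resolve_left hi).sub (sel_dvd hm a1)
      have e : u + 1 - (a + 1) = u - a := by ring
      rwa [e] at h1
  · have h0' := (hdiv 0).resolve_left h0
    refine ⟨Finset.univ.filter fun i => ¬ (q i : ℤ) ∣ u + 1, by simp [h0'], fun a a1 a2 => ?_⟩
    right
    refine sel_prod_dvd hr hc (hrdiv _ a a2).2 fun i => ?_
    by_cases hi : (q i : ℤ) ∣ u + 1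
    · have hm : i ∈ (Finset.univ.filter fun i => ¬ (q i : ℤ) ∣ u + 1)ᶜ := by simp [hi]
      have h1 := hi.add (sel_dvd' hm a2)
      have e : u + 1 + (a - 1) = u + a := by ring
      rwa [e] at h1
    · have hm : i ∈ (Finset.univ.filter fun i => ¬ (q i : ℤ) ∣ u + 1) := by simp [hi]
      have h1 := ((hdiv i).resolve_right hi).add (sel_dvd hm a1)
      have e : u - 1 + (a + 1) = u + a := by ring
      rwa [e] at h1

end Select

end Pool.Agent.H.MP_072fb1_ag.K3.Pol
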